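import Pool.Agent.helper11.Tight.Defs

set_option linter.all false

namespace Pool.Agent.helper11.Tight

open Finset

/-- two centres of a set with two points coincide -/
theorem centre_unique {X : Type*} [Fintype X] [DecidableEq X] {H' : SimpleGraph X} {d' : ℕ}
    (h' : Base H' d') {S : Finset X} (hS : 1 < S.card) {w w' : X}
    (h1 : ∀ x ∈ S, H'.Adj w x) (h2 : ∀ x ∈ S, H'.Adj w' x) : w = w' := by
  by_contra hne
  obtain ⟨a, ha, b, hb, hab⟩ := Finset.one_lt_card.mp hS
  exact hab (h'.c4 w w' a b hne (h1 a ha) (h2 a ha) (h1 b hb) (h2 b hb))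

/-- mod:T10a, general centre lemma -/
theorem centre {X Y : Type*} [Fintype X] [DecidableEq X] [Fintype Y] [DecidableEq Y]
    {H : SimpleGraph Y} {H' : SimpleGraph X} {β d' K θ : ℕ}
    (hbi : Bi H β) (hβ : 0 < β) (h' : Base H' d') (hp : FewP3 H' K) (hb : Bic H' θ)
    (hKθ : K ≤ θ) (hθ : 1 ≤ θ) (C : Y → Finset X)
    (hC : ∀ y y', H.Adj y y' → ∀ x ∈ C y, ∀ x' ∈ C y', Q H' x x') (L : Finset Y)
    (hL : ∀ y ∈ L, θ < (C y).card ∧ ∃ y', H.Adj y y' ∧ θ < (C y').card)
    (hcard : 3 * β ≤ L.card) :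
    ∃ w0, (Finset.univ.filter (fun y => ¬ (C y ⊆ nb H' w0))).card < β := by
  classical
  -- the label
  have hf0 : ∀ y : Y, ∃ w : X, y ∈ L → ∀ x ∈ C y, H'.Adj w x := by
    intro y
    by_cases hy : y ∈ L
    · obtain ⟨hy1, y', hadj, hy2⟩ := hL y hy
      obtain ⟨w, hw1, hw2⟩ := hb (C y) (C y') hy1 hy2 (fun a ha b hb => hC y y' hadj a ha b hb)
      exact ⟨w, fun _ => hw1⟩
    · have hne : L.Nonempty := by
        rw [← Finset.card_pos]; omega
      obtain ⟨y0, hy0⟩ := hne
      obtain ⟨hy1, _⟩ := hL y0 hy0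
      have : (C y0).Nonempty := by rw [← Finset.card_pos]; omega
      exact ⟨this.choose, fun h => absurd h hy⟩
  choose f hf using hf0
  have hedge : ∀ y ∈ L, ∀ y' ∈ L, H.Adj y y' → f y = f y' := by
    intro y hy y' hy' hadj
    obtain ⟨w, hw1, hw2⟩ := hb (C y) (C y') (hL y hy).1 (hL y' hy').1
      (fun a ha b hb => hC y y' hadj a ha b hb)
    have e1 : f y = w := centre_unique h' (by have := (hL y hy).1; omega) (hf y hy) hw1
    have e2 : f y' = w := centre_unique h' (by have := (hL y' hy').1; omega) (hf y' hy') hw2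
    rw [e1, e2]
  -- minimal set of labels
  let cls : Finset X → Finset Y := fun S => L.filter (fun y => f y ∈ S)
  have hex : ∃ S : Finset X, β ≤ (cls S).card := by
    refine ⟨Finset.univ, ?_⟩
    have : cls Finset.univ = L := by
      simp [cls]
    rw [this]; omega
  obtain ⟨S0, hS0⟩ := exists_minimal_of_wellFoundedLT (fun S : Finset X => β ≤ (cls S).card) hex
  have hS0c : β ≤ (cls S0).card := hS0.prop
  have hS0ne : S0.Nonempty := by
    rw [Finset.nonempty_iff_ne_empty]
    rintro rfl
    simp [cls] at hS0c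
    omega
  obtain ⟨w0, hw0⟩ := hS0ne
  -- the complement is small
  have hcompl : (L.filter (fun y => f y ∉ S0)).card < β := by
    by_contra hge
    push Not at hge
    have hdisj : Disjoint (cls S0) (L.filter (fun y => f y ∉ S0)) := by
      rw [Finset.disjoint_left]
      intro y hy hy'
      simp only [cls, Finset.mem_filter] at hy hy'
      exact hy'.2 hy.2
    obtain ⟨a, ha, b, hb', hab⟩ := hbi _ _ hdisj hS0c hge
    simp only [cls, Finset.mem_filter] at ha hb'
    have := hedge a ha.1 b hb'.1 hab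
    rw [this] at ha
    exact hb'.2 ha.2
  have hrest : (cls (S0.erase w0)).card < β := by
    by_contra hge
    push Not at hge
    have hle : S0.erase w0 ≤ S0 := Finset.erase_subset _ _
    have := hS0.le_of_le hge hle
    exact absurd (this hw0) (by simp)
  let L0 : Finset Y := L.filter (fun y => f y = w0)
  have hL0 : β ≤ L0.card := by
    have hsub : L ⊆ L0 ∪ (cls (S0.erase w0) ∪ L.filter (fun y => f y ∉ S0)) := by
      intro y hy
      simp only [L0, cls, Finset.mem_union, Finset.mem_filter, Finset.mem_erase]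
      by_cases h1 : f y = w0
      · exact Or.inl ⟨hy, h1⟩
      · by_cases h2 : f y ∈ S0
        · exact Or.inr (Or.inl ⟨hy, h1, h2⟩)
        · exact Or.inr (Or.inr ⟨hy, h2⟩)
    have h1 := Finset.card_le_card hsub
    have h2 := Finset.card_union_le L0 (cls (S0.erase w0) ∪ L.filter (fun y => f y ∉ S0))
    have h3 := Finset.card_union_le (cls (S0.erase w0)) (L.filter (fun y => f y ∉ S0))
    omega
  refine ⟨w0, ?_⟩
  by_contra hge
  push Not at hge
  have hdisj : Disjoint (Finset.univ.filter (fun y => ¬ (C y ⊆ nb H' w0))) L0 := by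
    rw [Finset.disjoint_left]
    intro y hy hy'
    simp only [L0, Finset.mem_filter] at hy hy'
    apply hy.2
    intro x hx
    rw [mem_nb, ← hy'.2]
    exact hf y hy'.1 x hx
  obtain ⟨y, hy, y', hy', hadj⟩ := hbi _ _ hdisj hge hL0
  simp only [L0, Finset.mem_filter, Finset.mem_univ, true_and] at hy hy'
  rw [Finset.not_subset] at hy
  obtain ⟨x, hx, hxw⟩ := hy
  rw [mem_nb] at hxw
  -- for each x' in C y' a path of length three
  have hz : ∀ x' ∈ C y', ∃ z, H'.Adj x z ∧ H'.Adj x' z := by
    intro x' hx'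
    have hadj' : H'.Adj w0 x' := by
      have := hf y' hy'.1 x' hx'
      rwa [hy'.2] at this
    rcases hC y y' hadj x hx x' hx' with h | h
    · exact absurd (h ▸ hadj') hxw
    · exact h
  have hz' : ∀ x' : X, ∃ z, x' ∈ C y' → H'.Adj x z ∧ H'.Adj x' z := by
    intro x'
    by_cases h : x' ∈ C y'
    · obtain ⟨z, hz⟩ := hz x' h
      exact ⟨z, fun _ => hz⟩
    · exact ⟨x', fun h' => absurd h' h⟩
  choose g hg using hz'
  have hy'c := (hL y' hy'.1).1
  have hx0 : w0 ≠ x := by
    rintro rfl
    have : (C y').Nonempty := by rw [← Finset.card_pos]; omega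
    obtain ⟨x', hx'⟩ := this
    obtain ⟨h1, h2⟩ := hg x' hx'
    have hadj' : H'.Adj w0 x' := by
      have := hf y' hy'.1 x' hx'
      rwa [hy'.2] at this
    exact h'.tri w0 x' (g x') hadj' h2 h1
  have hP := hp w0 x hx0
  have hinj : (C y').card ≤ (P3 H' w0 x).card := by
    apply Finset.card_le_card_of_injOn (fun x' => (x', g x'))
    · intro x' hx'
      have hx'' : x' ∈ C y' := hx'
      obtain ⟨h1, h2⟩ := hg x' hx''
      have hadj' : H'.Adj w0 x' := by
        have := hf y' hy'.1 x' hx''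
        rwa [hy'.2] at this
      simp only [Finset.mem_coe, mem_P3]
      refine ⟨hadj', h2, h1.symm, ?_, ?_⟩
      · rintro rfl
        exact hxw hadj'
      · intro hgw
        rw [hgw] at h1
        exact hxw h1.symm
    · intro a _ b _ hab
      exact (Prod.mk.injEq _ _ _ _ ▸ hab).1
  omega

/-- mod:T10b, cells in few columns -/
theorem mass_le {X Y : Type*} [Fintype X] [DecidableEq X] [Fintype Y] [DecidableEq Y]
    {H : SimpleGraph X} {H' : SimpleGraph Y} {β d' θ : ℕ}
    (hbi : Bi H β) (hβ : 0 < β) (h' : Base H' d') (hb : Bic H' θ) (hθ : θ ≤ d')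
    (C : X → Finset Y) (hC : ∀ x x', H.Adj x x' → ∀ y ∈ C x, ∀ y' ∈ C x', Q H' y y')
    (S : Finset X) (T : Finset Y) (hS : ∀ x ∈ S, C x ⊆ T) :
    ∑ x ∈ S, (C x).card ≤ 2 * β * T.card + S.card * d' := by
  classical
  let B : Finset X := S.filter (fun x => d' < (C x).card)
  have hind : ∀ x ∈ B, ∀ x' ∈ B, ¬ H.Adj x x' := by
    intro x hx x' hx' hadj
    simp only [B, Finset.mem_filter] at hx hx'
    obtain ⟨w, hw1, hw2⟩ := hb (C x) (C x') (by omega) (by omega)
      (fun a ha b hb => hC x x' hadj a ha b hb)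
    have : (C x).card ≤ (nb H' w).card := by
      apply Finset.card_le_card
      intro a ha
      rw [mem_nb]
      exact hw1 a ha
    rw [h'.reg] at this
    omega
  have hB : B.card < 2 * β := by
    by_contra hge
    push Not at hge
    obtain ⟨B1, hB1, hB1c⟩ := Finset.exists_subset_card_eq (show β ≤ B.card by omega)
    have hB2c : β ≤ (B \ B1).card := by
      rw [Finset.card_sdiff_of_subset hB1]; omega
    obtain ⟨a, ha, b, hb', hab⟩ := hbi B1 (B \ B1) Finset.disjoint_sdiff (by omega) hB2c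
    exact hind a (hB1 ha) b (Finset.mem_sdiff.mp hb').1 hab
  have hsplit : ∑ x ∈ S, (C x).card = ∑ x ∈ B, (C x).card +
      ∑ x ∈ S.filter (fun x => ¬ d' < (C x).card), (C x).card := by
    rw [← Finset.sum_filter_add_sum_filter_not S (fun x => d' < (C x).card)]
  rw [hsplit]
  have h1 : ∑ x ∈ B, (C x).card ≤ B.card * T.card := by
    apply Finset.sum_le_card_nsmul
    intro x hx
    exact Finset.card_le_card (hS x (Finset.mem_filter.mp hx).1)
  have h2 : ∑ x ∈ S.filter (fun x => ¬ d' < (C x).card), (C x).card ≤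
      (S.filter (fun x => ¬ d' < (C x).card)).card * d' := by
    apply Finset.sum_le_card_nsmul
    intro x hx
    exact Nat.le_of_not_lt (Finset.mem_filter.mp hx).2
  have h3 : (S.filter (fun x => ¬ d' < (C x).card)).card ≤ S.card :=
    Finset.card_le_card (Finset.filter_subset _ _)
  have h4 : B.card * T.card ≤ 2 * β * T.card := Nat.mul_le_mul_right _ hB.le
  have h5 : (S.filter (fun x => ¬ d' < (C x).card)).card * d' ≤ S.card * d' :=
    Nat.mul_le_mul_right _ h3
  omega

end Pool.Agent.helper11.Tight
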