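import Pool.Agent.helper11.Tight.Defs

set_option linter.all false

namespace Pool.Agent.helper11.Tight

/-- the numerical conditions of the product theorem -/
structure PC (d1 M1 β1 q1 m1 d2 M2 β2 e2 q2 r2 K θ : ℕ) : Prop where
  hq1 : q1 = 1 + d1 * (d1 - 1)
  hq2 : q2 = 1 + d2 * (d2 - 1)
  hM1 : M1 = q1 + d1 + m1
  hM2 : M2 = q2 + r2
  hβ1 : 0 < β1
  hβ2 : 0 < β2
  hKθ : K ≤ θ
  hθ : 2 ≤ θ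
  hθd : 2 * θ ≤ d2
  hKd : 4 * K ≤ d1
  hKe : 2 * K ≤ e2
  N1 : 20 * (d1 * q2 + θ * M2 + 4 * β1 * β2 + M1 * d2) ≤ d1 * M2
  N2 : 20 * β2 ≤ M2
  N3 : 8 * (q2 + d1 * β2) ≤ M2
  N4 : 16 * β1 ≤ d1 * e2
  N5 : 8 * d1 * q2 < M2
  N6 : 4 * (3 * d1 * d2 + 2 * β1) ≤ m1
  N7 : d1 * d2 + K * q2 + 1 ≤ m1
  N8 : q1 + K * q2 < m1
  N9 : 6 * β1 ≤ m1

end Pool.Agent.helper11.Tight
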