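import Pool.Agent.helper52.Tight.Centre
import Pool.Agent.helper52.Tight.PC

set_option linter.all false

namespace Pool.Agent.helper11.Tight

open Finset

variable {X Y : Type*} [Fintype X] [DecidableEq X] [Fintype Y] [DecidableEq Y]

/-- mod:T10c, the first centre -/
theorem stage1 {H1 : SimpleGraph X} {H2 : SimpleGraph Y}
    {d1 M1 β1 e1 q1 m1 d2 M2 β2 e2 q2 r2 K θ : ℕ}
    (h1 : Good H1 d1 β1 K θ e1) (h2 : Good H2 d2 β2 K θ e2)
    (hX : Fintype.card X = M1) (hY : Fintype.card Y = M2)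
    (hc : PC d1 M1 β1 q1 m1 d2 M2 β2 e2 q2 r2 K θ) (I : Finset (X × Y))
    (hI : ∀ p ∈ I, ∀ q ∈ I, ¬ (prodG H1 H2).Adj p q) (hbig : d1 * r2 + d2 * m1 < I.card) :
    ∃ (w0 : X) (U : Finset Y), U.card < β2 ∧ ∀ x y, (x, y) ∈ I → y ∉ U → H1.Adj w0 x := by
  classical
  have hI1 : ∀ x y x' y', (x, y) ∈ I → (x', y') ∈ I → H1.Adj x x' → Q H2 y y' := by
    intro x y x' y' h h' hadj
    by_contra hq
    exact hI _ h _ h' (Or.inl ⟨hadj, hq⟩)
  have hI2 : ∀ x y x' y', (x, y) ∈ I → (x', y') ∈ I → H2.Adj y y' → Q H1 x x' := by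
    intro x y x' y' h h' hadj
    by_contra hq
    exact hI _ h _ h' (Or.inr ⟨hadj, hq⟩)
  let C : Y → Finset X := fun y => Finset.univ.filter (fun x => (x, y) ∈ I)
  have hmC : ∀ x y, x ∈ C y ↔ (x, y) ∈ I := by intro x y; simp [C]
  have hC : ∀ y y', H2.Adj y y' → ∀ x ∈ C y, ∀ x' ∈ C y', Q H1 x x' := by
    intro y y' hadj x hx x' hx'
    exact hI2 x y x' y' ((hmC _ _).1 hx) ((hmC _ _).1 hx') hadj
  have hIcard : ∑ y : Y, (C y).card = I.card := by
    rw [← Finset.card_sigma]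
    apply Finset.card_bij (fun (p : (_ : Y) × X) _ => (p.2, p.1))
    · rintro ⟨y, x⟩ hp
      simpa [C] using hp
    · rintro ⟨y, x⟩ _ ⟨y', x'⟩ _ h
      simp only [Prod.mk.injEq] at h
      obtain ⟨rfl, rfl⟩ := h
      rfl
    · rintro ⟨x, y⟩ hp
      exact ⟨⟨y, x⟩, by simpa [C] using hp, rfl⟩
  let L : Finset Y := Finset.univ.filter (fun y => θ < (C y).card ∧ ∃ y', H2.Adj y y' ∧ θ < (C y').card)
  let T : Finset Y := Finset.univ.filter
    (fun y => θ < (C y).card ∧ ¬ ∃ y', H2.Adj y y' ∧ θ < (C y').card)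
  let P : Finset Y := Finset.univ.filter (fun y => ¬ θ < (C y).card)
  have hsplit : ∑ y : Y, (C y).card = ∑ y ∈ L, (C y).card + ∑ y ∈ T, (C y).card +
      ∑ y ∈ P, (C y).card := by
    rw [← Finset.sum_filter_add_sum_filter_not Finset.univ (fun y => θ < (C y).card)]
    rw [← Finset.sum_filter_add_sum_filter_not (Finset.univ.filter (fun y => θ < (C y).card))
      (fun y => ∃ y', H2.Adj y y' ∧ θ < (C y').card)]
    rw [Finset.filter_filter, Finset.filter_filter]
  -- poor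
  have hP : ∑ y ∈ P, (C y).card ≤ θ * M2 := by
    calc ∑ y ∈ P, (C y).card ≤ P.card * θ := by
          apply Finset.sum_le_card_nsmul
          intro y hy
          exact Nat.le_of_not_lt (Finset.mem_filter.mp hy).2
      _ ≤ M2 * θ := Nat.mul_le_mul_right _ (by rw [← hY]; exact Finset.card_le_univ _)
      _ = θ * M2 := Nat.mul_comm _ _
  -- isolated
  have hTind : ∀ y ∈ T, ∀ y' ∈ T, ¬ H2.Adj y y' := by
    intro y hy y' hy' hadj
    simp only [T, Finset.mem_filter, Finset.mem_univ, true_and] at hy hy'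
    exact hy.2 ⟨y', hadj, hy'.1⟩
  have hTc : T.card < 2 * β2 := by
    by_contra hge
    push Not at hge
    obtain ⟨B1, hB1, hB1c⟩ := Finset.exists_subset_card_eq (show β2 ≤ T.card by omega)
    have hB2c : β2 ≤ (T \ B1).card := by
      rw [Finset.card_sdiff_of_subset hB1]; omega
    obtain ⟨a, ha, b, hb', hab⟩ := h2.bi B1 (T \ B1) Finset.disjoint_sdiff (by omega) hB2c
    exact hTind a (hB1 ha) b (Finset.mem_sdiff.mp hb').1 hab
  have hT : ∑ y ∈ T, (C y).card ≤ 4 * β1 * β2 + M1 * d2 := by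
    have hm := mass_le (H := H1) (H' := H2) h1.bi hc.hβ1 h2.toBase h2.bic
      (by have := hc.hθd; omega)
      (fun x => T.filter (fun y => (x, y) ∈ I))
      (by
        intro x x' hadj y hy y' hy'
        exact hI1 x y x' y' (Finset.mem_filter.mp hy).2 (Finset.mem_filter.mp hy').2 hadj)
      Finset.univ T (fun x _ => Finset.filter_subset _ _)
    have hswap : ∑ y ∈ T, (C y).card = ∑ x : X, (T.filter (fun y => (x, y) ∈ I)).card := by
      simp only [C, Finset.card_filter]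
      rw [Finset.sum_comm]
    rw [hswap]
    rw [Finset.card_univ, hX] at hm
    have : 2 * β1 * T.card ≤ 2 * β1 * (2 * β2) := Nat.mul_le_mul_left _ hTc.le
    have e : 2 * β1 * (2 * β2) = 4 * β1 * β2 := by ring
    omega
  -- connected
  have hLm : ∀ y ∈ L, θ < (C y).card ∧ ∃ y', H2.Adj y y' ∧ θ < (C y').card := by
    intro y hy
    simpa [L] using hy
  have hLs : ∑ y ∈ L, (C y).card ≤ d1 * L.card := by
    rw [Nat.mul_comm]
    apply Finset.sum_le_card_nsmul
    intro y hy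
    obtain ⟨hy1, y', hadj, hy2⟩ := hLm y hy
    obtain ⟨w, hw1, hw2⟩ := h1.bic (C y) (C y') hy1 hy2 (fun a ha b hb => hC y y' hadj a ha b hb)
    rw [← h1.reg w]
    apply Finset.card_le_card
    intro a ha
    rw [mem_nb]
    exact hw1 a ha
  have hq : d1 * r2 = d1 * M2 - d1 * q2 := by
    rw [hc.hM2, Nat.mul_add]; omega
  have hkey : 19 * (d1 * M2) < 20 * (d1 * L.card) := by
    have hN1 := hc.N1
    have hle : d1 * q2 ≤ d1 * M2 := Nat.mul_le_mul_left _ (by rw [hc.hM2]; omega)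
    have : 0 ≤ d2 * m1 := Nat.zero_le _
    omega
  have hL19 : 19 * M2 < 20 * L.card := by
    have : d1 * (19 * M2) < d1 * (20 * L.card) := by
      have e1 : d1 * (19 * M2) = 19 * (d1 * M2) := by ring
      have e2 : d1 * (20 * L.card) = 20 * (d1 * L.card) := by ring
      omega
    exact Nat.lt_of_mul_lt_mul_left this
  have hL3 : 3 * β2 ≤ L.card := by
    have := hc.N2
    omega
  obtain ⟨w0, hw0⟩ := centre h2.bi hc.hβ2 h1.toBase h1.p3 h1.bic hc.hKθ
    (by have := hc.hθ; omega) C hC L hLm hL3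
  refine ⟨w0, _, hw0, ?_⟩
  intro x y hxy hyU
  simp only [Finset.mem_filter, Finset.mem_univ, true_and, not_not] at hyU
  have := hyU ((hmC x y).2 hxy)
  rwa [mem_nb] at this

end Pool.Agent.helper11.Tight
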